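import Pool.Agent.J4H7.AF.Stm

set_option autoImplicit false

/-!
# Project AF, piece BC (helper22)

Borel-Cantelli: the total number of near-coincidences in separated boxes.
-/

namespace Pool.Agent.J4H22.AF

open Finset MeasureTheory Filter Topology
open Pool.Agent.J4H7.AF
open Pool.Agent.J4H7.WT (DD Nr EX PT EX_meas)

lemma TOT_eq (k K m : ℕ) (L0 τ : ℝ) (α : Fin k → ℝ) :
    ∑ l ∈ range m, ∑ P ∈ range (K ^ l), ∑ c ∈ Sep k K,
      ∑ p ∈ BX K P (K ^ (m - l - 1)) c ×ˢ BX K P (K ^ (m - l - 1)) c,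
        (EX k L0 τ p.1 p.2).indicator (fun _ => (1 : ENNReal)) α = (TOT k K m L0 τ α : ENNReal) := by
  classical
  unfold TOT
  push_cast
  refine Finset.sum_congr rfl fun l _ => Finset.sum_congr rfl fun P _ => Finset.sum_congr rfl fun c _ => ?_
  rw [Finset.card_filter]
  push_cast
  refine Finset.sum_congr rfl fun p _ => ?_
  by_cases h : α ∈ EX k L0 τ p.1 p.2
  · rw [Set.indicator_of_mem h]
    simp [h]
  · rw [Set.indicator_of_notMem h]
    simp [h]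

lemma Sep_card (k K : ℕ) : ((Sep k K).card : ℝ) ≤ (K : ℝ) ^ k := by
  have h1 : (Sep k K).card ≤ K ^ k := by
    unfold Pool.Agent.J4H7.AF.Sep
    refine (Finset.card_filter_le _ _).trans ?_
    rw [Fintype.card_piFinset]
    simp
  exact_mod_cast h1

/-- the measure of the bad coefficients -/
lemma bad_le {k K m : ℕ} {L0 τ B D : ℝ} (hB : 0 < B)
    (hU : ∑ l ∈ range m, ∑ P ∈ range (K ^ l), ∑ c ∈ Sep k K,
      ∑ p ∈ BX K P (K ^ (m - l - 1)) c ×ˢ BX K P (K ^ (m - l - 1)) c, volume (EX k L0 τ p.1 p.2) ≤ ENNReal.ofReal D) :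
    volume {α : Fin k → ℝ | B ≤ TOT k K m L0 τ α} ≤ ENNReal.ofReal (D / B) := by
  set f : (Fin k → ℝ) → ENNReal := fun α => ∑ l ∈ range m, ∑ P ∈ range (K ^ l), ∑ c ∈ Sep k K,
      ∑ p ∈ BX K P (K ^ (m - l - 1)) c ×ˢ BX K P (K ^ (m - l - 1)) c,
        (EX k L0 τ p.1 p.2).indicator (fun _ => (1 : ENNReal)) α with hf
  have hm4 : ∀ p : (Fin k → ℕ) × (Fin k → ℕ), Measurable fun α => (EX k L0 τ p.1 p.2).indicator (fun _ => (1 : ENNReal)) α :=
    fun p => measurable_const.indicator (EX_meas k L0 τ p.1 p.2)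
  have hm3 : ∀ l P (c : Fin k → ℕ), Measurable fun α => ∑ p ∈ BX K P (K ^ (m - l - 1)) c ×ˢ BX K P (K ^ (m - l - 1)) c,
      (EX k L0 τ p.1 p.2).indicator (fun _ => (1 : ENNReal)) α := fun l P c => Finset.measurable_fun_sum _ fun p _ => hm4 p
  have hm2 : ∀ l P, Measurable fun α => ∑ c ∈ Sep k K, ∑ p ∈ BX K P (K ^ (m - l - 1)) c ×ˢ BX K P (K ^ (m - l - 1)) c,
      (EX k L0 τ p.1 p.2).indicator (fun _ => (1 : ENNReal)) α := fun l P => Finset.measurable_fun_sum _ fun c _ => hm3 l P c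
  have hm1 : ∀ l, Measurable fun α => ∑ P ∈ range (K ^ l), ∑ c ∈ Sep k K,
      ∑ p ∈ BX K P (K ^ (m - l - 1)) c ×ˢ BX K P (K ^ (m - l - 1)) c,
      (EX k L0 τ p.1 p.2).indicator (fun _ => (1 : ENNReal)) α := fun l => Finset.measurable_fun_sum _ fun P _ => hm2 l P
  have hfm : Measurable f := Finset.measurable_fun_sum _ fun l _ => hm1 l
  have h1 : {α : Fin k → ℝ | B ≤ TOT k K m L0 τ α} ⊆ {α | ENNReal.ofReal B ≤ f α} := by
    intro α h3
    change ENNReal.ofReal B ≤ f α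
    rw [hf]
    simp only
    rw [TOT_eq]
    calc ENNReal.ofReal B ≤ ENNReal.ofReal (TOT k K m L0 τ α : ℝ) := ENNReal.ofReal_le_ofReal h3
      _ = _ := ENNReal.ofReal_natCast _
  have h2 := meas_ge_le_lintegral_div (μ := volume) hfm.aemeasurable (ε := ENNReal.ofReal B)
    (by rw [Ne, ENNReal.ofReal_eq_zero, not_le]; exact hB) ENNReal.ofReal_ne_top
  have h3 : ∫⁻ α, f α = ∑ l ∈ range m, ∑ P ∈ range (K ^ l), ∑ c ∈ Sep k K,
      ∑ p ∈ BX K P (K ^ (m - l - 1)) c ×ˢ BX K P (K ^ (m - l - 1)) c, volume (EX k L0 τ p.1 p.2) := by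
    rw [hf]
    rw [lintegral_finsetSum _ fun l _ => hm1 l]
    refine Finset.sum_congr rfl fun l _ => ?_
    rw [lintegral_finsetSum _ fun P _ => hm2 l P]
    refine Finset.sum_congr rfl fun P _ => ?_
    rw [lintegral_finsetSum _ fun c _ => hm3 l P c]
    refine Finset.sum_congr rfl fun c _ => ?_
    rw [lintegral_finsetSum _ fun p _ => hm4 p]
    refine Finset.sum_congr rfl fun p _ => ?_
    rw [lintegral_indicator (EX_meas k L0 τ p.1 p.2), setLIntegral_const, one_mul]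
  calc volume {α : Fin k → ℝ | B ≤ TOT k K m L0 τ α} ≤ volume {α | ENNReal.ofReal B ≤ f α} := measure_mono h1
    _ ≤ (∫⁻ α, f α) / ENNReal.ofReal B := h2
    _ ≤ ENNReal.ofReal D / ENNReal.ofReal B := by
        rw [h3]
        gcongr
    _ = _ := by
        rw [← ENNReal.ofReal_div_of_pos hB]

/-- the total measure -/
lemma total (h : S_MEAN) (t K : ℕ) {L0 τ : ℝ} (hK : 2 ≤ K) (hL : 1 ≤ L0) (hτ : 0 ≤ τ) : ∃ C : ℝ, 1 ≤ C ∧ ∀ m : ℕ,
    ∑ l ∈ range m, ∑ P ∈ range (K ^ l), ∑ c ∈ Sep (t + 1) K,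
      ∑ p ∈ BX K P (K ^ (m - l - 1)) c ×ˢ BX K P (K ^ (m - l - 1)) c, volume (EX (t + 1) L0 τ p.1 p.2) ≤
      ENNReal.ofReal (C * ((m : ℝ) + 1) ^ 2 * ((K : ℝ) ^ m) ^ (t + 1)) := by
  obtain ⟨C, hC, HU⟩ := h t K L0 τ (by omega) hL hτ
  have hK1 : (1 : ℝ) ≤ K := by exact_mod_cast (by omega : 1 ≤ K)
  refine ⟨C * K * (K : ℝ) ^ (t + 1), ?_, fun m => ?_⟩
  · have h1 : (1 : ℝ) ≤ (K : ℝ) ^ (t + 1) := one_le_pow₀ hK1
    have h2 : (1 : ℝ) ≤ C * K := by nlinarith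
    nlinarith
  have hlog : ((Nat.log 2 (K ^ m) : ℕ) : ℝ) + 1 ≤ K * ((m : ℝ) + 1) := by
    have h1 : Nat.log 2 (K ^ m) ≤ K * m := by
      have h2 : K ^ m ≤ 2 ^ (K * m) := by
        rw [pow_mul]
        exact Nat.pow_le_pow_left Nat.lt_two_pow_self.le m
      calc Nat.log 2 (K ^ m) ≤ Nat.log 2 (2 ^ (K * m)) := Nat.log_mono_right h2
        _ = K * m := Nat.log_pow (by norm_num) _
    have h3 : ((Nat.log 2 (K ^ m) : ℕ) : ℝ) ≤ K * m := by exact_mod_cast h1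
    linarith
  have hterm : ∀ l ∈ range m, ∀ P ∈ range (K ^ l), ∀ c ∈ Sep (t + 1) K,
      ∑ p ∈ BX K P (K ^ (m - l - 1)) c ×ˢ BX K P (K ^ (m - l - 1)) c, volume (EX (t + 1) L0 τ p.1 p.2) ≤
      ENNReal.ofReal (C * (K * ((m : ℝ) + 1) * (((K : ℝ) ^ l) ^ t * ((K : ℝ) ^ (m - l - 1)) ^ (t + 1)))) := by
    intro l hl P hP c hc
    rw [Finset.mem_range] at hl hP
    have e1 : K * K ^ l * K ^ (m - l - 1) = K ^ m := by
      rw [← pow_succ', ← pow_add]
      congr 1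
      omega
    have h1 := HU P (K ^ (m - l - 1)) (K ^ m) (Nat.one_le_pow _ _ (by omega)) (by
      rw [← e1]
      exact Nat.mul_le_mul_right _ (Nat.mul_le_mul_left _ (by omega))) c hc
    refine h1.trans (ENNReal.ofReal_le_ofReal ?_)
    have hP1 : (P : ℝ) + 1 ≤ (K : ℝ) ^ l := by exact_mod_cast (by omega : P + 1 ≤ K ^ l)
    have h2 : ((P : ℝ) + 1) ^ t ≤ ((K : ℝ) ^ l) ^ t := pow_le_pow_left₀ (by positivity) hP1 _
    apply mul_le_mul_of_nonneg_left _ (by linarith)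
    push_cast
    apply mul_le_mul hlog _ (by positivity) (by positivity)
    exact mul_le_mul_of_nonneg_right h2 (by positivity)
  calc _ ≤ ∑ l ∈ range m, ∑ P ∈ range (K ^ l), ∑ c ∈ Sep (t + 1) K,
        ENNReal.ofReal (C * (K * ((m : ℝ) + 1) * (((K : ℝ) ^ l) ^ t * ((K : ℝ) ^ (m - l - 1)) ^ (t + 1)))) :=
        Finset.sum_le_sum fun l hl => Finset.sum_le_sum fun P hP => Finset.sum_le_sum fun c hc => hterm l hl P hP c hc
    _ = ENNReal.ofReal (∑ l ∈ range m, ∑ P ∈ range (K ^ l), ∑ c ∈ Sep (t + 1) K,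
        (C * (K * ((m : ℝ) + 1) * (((K : ℝ) ^ l) ^ t * ((K : ℝ) ^ (m - l - 1)) ^ (t + 1))))) := by
        rw [ENNReal.ofReal_sum_of_nonneg (fun l _ => by positivity)]
        refine Finset.sum_congr rfl fun l _ => ?_
        rw [ENNReal.ofReal_sum_of_nonneg (fun P _ => by positivity)]
        refine Finset.sum_congr rfl fun P _ => ?_
        rw [ENNReal.ofReal_sum_of_nonneg (fun c _ => by positivity)]
    _ ≤ _ := by
        apply ENNReal.ofReal_le_ofReal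
        have h1 : ∀ l ∈ range m, ∑ P ∈ range (K ^ l), ∑ c ∈ Sep (t + 1) K,
            (C * (K * ((m : ℝ) + 1) * (((K : ℝ) ^ l) ^ t * ((K : ℝ) ^ (m - l - 1)) ^ (t + 1)))) ≤
            C * K * (K : ℝ) ^ (t + 1) * ((m : ℝ) + 1) * ((K : ℝ) ^ m) ^ (t + 1) := by
          intro l hl
          rw [Finset.mem_range] at hl
          rw [Finset.sum_const, Finset.sum_const, Finset.card_range, nsmul_eq_mul, nsmul_eq_mul]
          push_cast
          have h2 := Sep_card (t + 1) K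
          have e1 : (K : ℝ) ^ l * (((K : ℝ) ^ l) ^ t * ((K : ℝ) ^ (m - l - 1)) ^ (t + 1)) = ((K : ℝ) ^ (l + (m - l - 1))) ^ (t + 1) := by
            rw [pow_add (K : ℝ) l (m - l - 1), mul_pow, pow_succ ((K : ℝ) ^ l) t]
            ring
          have h3 : ((K : ℝ) ^ (l + (m - l - 1))) ^ (t + 1) ≤ ((K : ℝ) ^ m) ^ (t + 1) :=
            pow_le_pow_left₀ (by positivity) (pow_le_pow_right₀ hK1 (by omega)) _
          calc (K : ℝ) ^ l * (((Sep (t + 1) K).card : ℝ) * (C * (K * ((m : ℝ) + 1) * (((K : ℝ) ^ l) ^ t * ((K : ℝ) ^ (m - l - 1)) ^ (t + 1)))))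
              = C * K * ((Sep (t + 1) K).card : ℝ) * ((m : ℝ) + 1) * ((K : ℝ) ^ l * (((K : ℝ) ^ l) ^ t * ((K : ℝ) ^ (m - l - 1)) ^ (t + 1))) := by ring
            _ = C * K * ((Sep (t + 1) K).card : ℝ) * ((m : ℝ) + 1) * ((K : ℝ) ^ (l + (m - l - 1))) ^ (t + 1) := by rw [e1]
            _ ≤ C * K * (K : ℝ) ^ (t + 1) * ((m : ℝ) + 1) * ((K : ℝ) ^ m) ^ (t + 1) := by gcongr
        calc _ ≤ ∑ l ∈ range m, C * K * (K : ℝ) ^ (t + 1) * ((m : ℝ) + 1) * ((K : ℝ) ^ m) ^ (t + 1) := Finset.sum_le_sum h1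
          _ = m * (C * K * (K : ℝ) ^ (t + 1) * ((m : ℝ) + 1) * ((K : ℝ) ^ m) ^ (t + 1)) := by simp
          _ ≤ ((m : ℝ) + 1) * (C * K * (K : ℝ) ^ (t + 1) * ((m : ℝ) + 1) * ((K : ℝ) ^ m) ^ (t + 1)) := by
              apply mul_le_mul_of_nonneg_right (by linarith) (by positivity)
          _ = _ := by ring

/-- **(BC)** -/
theorem t_BC : S_MEAN → S_BC := by
  intro H t K L0 τ hK hL hτ
  obtain ⟨C, hC, HU⟩ := total H t K hK hL hτ
  have hK2 : (2 : ℝ) ≤ K := by exact_mod_cast hK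
  have hK0 : (0 : ℝ) < K := by linarith
  have hX0 : ∀ j : ℕ, (0 : ℝ) < (K : ℝ) ^ j := fun j => by positivity
  have key : ∀ᵐ α : Fin (t + 1) → ℝ, ∀ r : ℕ, ∀ᶠ j : ℕ in atTop,
      (TOT (t + 1) K j L0 τ α : ℝ) ≤ ((K : ℝ) ^ j) ^ (((t + 1 : ℕ) : ℝ) + 1 / ((r : ℝ) + 1)) := by
    rw [ae_all_iff]
    intro r
    set ε : ℝ := 1 / ((r : ℝ) + 1) with hε
    have hε0 : 0 < ε := by positivity
    set s : ℕ → Set (Fin (t + 1) → ℝ) := fun j =>
      {α | ((K : ℝ) ^ j) ^ (((t + 1 : ℕ) : ℝ) + ε) ≤ TOT (t + 1) K j L0 τ α} with hs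
    have hsm : ∀ j, volume (s j) ≤ ENNReal.ofReal (C * (((j : ℝ) + 1) ^ 2 * ((K : ℝ) ^ (-ε)) ^ j)) := by
      intro j
      refine (bad_le (Real.rpow_pos_of_pos (hX0 j) _) (HU j)).trans (le_of_eq ?_)
      congr 1
      have h1 : ((K : ℝ) ^ j) ^ (((t + 1 : ℕ) : ℝ) + ε) = ((K : ℝ) ^ j) ^ (t + 1) * ((K : ℝ) ^ j) ^ ε := by
        rw [Real.rpow_add (hX0 j), Real.rpow_natCast]
      have h2 : ((K : ℝ) ^ (-ε)) ^ j = (((K : ℝ) ^ j) ^ ε)⁻¹ := by
        rw [← Real.rpow_natCast, ← Real.rpow_mul hK0.le, ← Real.rpow_natCast (K : ℝ) j, ← Real.rpow_mul hK0.le,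
          ← Real.rpow_neg hK0.le]
        congr 1
        ring
      rw [h1, h2]
      have h3 : (0 : ℝ) < ((K : ℝ) ^ j) ^ (t + 1) := by positivity
      have h4 : (0 : ℝ) < ((K : ℝ) ^ j) ^ ε := Real.rpow_pos_of_pos (hX0 j) _
      field_simp
    have hsum : Summable fun j : ℕ => C * (((j : ℝ) + 1) ^ 2 * ((K : ℝ) ^ (-ε)) ^ j) := by
      set ρ : ℝ := (K : ℝ) ^ (-ε) with hr
      have hr0 : 0 < ρ := Real.rpow_pos_of_pos hK0 _
      have hr1 : ρ < 1 := Real.rpow_lt_one_of_one_lt_of_neg (by linarith) (by linarith)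
      have h0 : Summable fun j : ℕ => (j : ℝ) ^ 2 * ρ ^ j :=
        summable_pow_mul_geometric_of_norm_lt_one 2 (by rw [Real.norm_of_nonneg hr0.le]; exact hr1)
      have h1 : Summable fun j : ℕ => (j : ℝ) ^ 1 * ρ ^ j :=
        summable_pow_mul_geometric_of_norm_lt_one 1 (by rw [Real.norm_of_nonneg hr0.le]; exact hr1)
      have h2 : Summable fun j : ℕ => ρ ^ j := summable_geometric_of_lt_one hr0.le hr1
      have h3 := ((h0.add (h1.mul_left 2)).add h2).mul_left C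
      refine h3.congr fun j => ?_
      ring
    have hne : ∑' j, volume (s j) ≠ ⊤ :=
      ne_top_of_le_ne_top hsum.tsum_ofReal_ne_top (ENNReal.tsum_le_tsum hsm)
    filter_upwards [ae_eventually_notMem hne] with α hα
    filter_upwards [hα] with j hj
    rw [hs] at hj
    simp only [Set.mem_ofPred_eq, not_le] at hj
    exact hj.le
  filter_upwards [key] with α hα ε hε
  obtain ⟨r, hr⟩ := exists_nat_one_div_lt hε
  filter_upwards [hα r] with j hj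
  refine hj.trans ?_
  exact Real.rpow_le_rpow_of_exponent_le (one_le_pow₀ (by linarith)) (by linarith)

end Pool.Agent.J4H22.AF
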